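import Pool.Agent.H18.VZ.Targets

/-!
# vz_modules NPX : the theorem of Newton and Puiseux
-/

open Pool.Agent.H18.VZ

namespace Pool.Agent.H97.VZ

section
variable {κ : Type} [Field κ]

/-- the substitution `X ↦ X ^ m` -/
noncomputable def E (m : ℕ) (hm : m ≠ 0) : PowerSeries κ →+* PowerSeries κ :=
  (PowerSeries.expand m hm).toRingHom

theorem E_apply (m : ℕ) (hm : m ≠ 0) (a : PowerSeries κ) :
    E m hm a = PowerSeries.expand m hm a := rfl

theorem E_congr {m m' : ℕ} (hm : m ≠ 0) (hm' : m' ≠ 0) (h : m = m') :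
    (E m hm : PowerSeries κ →+* PowerSeries κ) = E m' hm' := by
  subst h
  rfl

theorem E_comp (m n : ℕ) (hm : m ≠ 0) (hn : n ≠ 0) :
    ((E m hm).comp (E n hn) : PowerSeries κ →+* PowerSeries κ) =
      E (m * n) (Nat.mul_ne_zero hm hn) := by
  ext1 a
  rw [RingHom.comp_apply, E_apply, E_apply, E_apply, PowerSeries.expand_mul m hm n hn]

theorem E_zero {m : ℕ} {hm : m ≠ 0} {c : PowerSeries κ} (h : E m hm c = 0) : c = 0 := by
  ext n
  have h1 := PowerSeries.coeff_expand_mul m hm c n
  rw [← E_apply, h, map_zero] at h1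
  rw [← h1, map_zero]

/-- split polynomials -/
def Spl (Q : Polynomial (PowerSeries κ)) : Prop :=
  ∃ S : Multiset (PowerSeries κ), Q = (S.map (fun a => Polynomial.X - Polynomial.C a)).prod

/-- polynomials which split after an extension -/
def Good (Q : Polynomial (PowerSeries κ)) : Prop :=
  ∃ (m : ℕ) (hm : m ≠ 0), Spl (Q.map (E m hm))

theorem spl_map (f : PowerSeries κ →+* PowerSeries κ) {Q : Polynomial (PowerSeries κ)}
    (h : Spl Q) : Spl (Q.map f) := by
  obtain ⟨S, rfl⟩ := h
  refine ⟨S.map f, ?_⟩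
  rw [Polynomial.map_multiset_prod, Multiset.map_map, Multiset.map_map]
  congr 1
  refine Multiset.map_congr rfl fun a _ => ?_
  simp

theorem spl_mul {P Q : Polynomial (PowerSeries κ)} (hP : Spl P) (hQ : Spl Q) : Spl (P * Q) := by
  obtain ⟨S, rfl⟩ := hP
  obtain ⟨T, rfl⟩ := hQ
  exact ⟨S + T, by rw [Multiset.map_add, Multiset.prod_add]⟩

theorem good_of_map {Q : Polynomial (PowerSeries κ)} {q : ℕ} {hq : q ≠ 0}
    (h : Good (Q.map (E q hq))) : Good Q := by
  obtain ⟨m, hm, h⟩ := h
  refine ⟨m * q, Nat.mul_ne_zero hm hq, ?_⟩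
  rw [← E_comp m q hm hq, ← Polynomial.map_map]
  exact h

theorem good_mul {P Q : Polynomial (PowerSeries κ)} (hP : Good P) (hQ : Good Q) :
    Good (P * Q) := by
  obtain ⟨m, hm, hP⟩ := hP
  obtain ⟨n, hn, hQ⟩ := hQ
  refine ⟨m * n, Nat.mul_ne_zero hm hn, ?_⟩
  rw [Polynomial.map_mul]
  refine spl_mul ?_ ?_
  · rw [E_congr (Nat.mul_ne_zero hm hn) (Nat.mul_ne_zero hn hm) (Nat.mul_comm m n),
      ← E_comp n m hn hm, ← Polynomial.map_map]
    exact spl_map _ hP
  · rw [← E_comp m n hm hn, ← Polynomial.map_map]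
    exact spl_map _ hQ

theorem scale_prod (t : PowerSeries κ) (S : Multiset (PowerSeries κ)) :
    ((S.map (fun a => Polynomial.X - Polynomial.C a)).prod).scaleRoots t =
      ((S.map (fun a => a * t)).map (fun a => Polynomial.X - Polynomial.C a)).prod := by
  induction S using Multiset.induction_on with
  | empty => simp
  | cons a S ih =>
    rw [Multiset.map_cons, Multiset.prod_cons, Polynomial.mul_scaleRoots_of_noZeroDivisors, ih,
      Polynomial.X_sub_C_scaleRoots, Multiset.map_cons, Multiset.map_cons, Multiset.prod_cons]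

theorem good_scale {Q : Polynomial (PowerSeries κ)} (hQ : Q.Monic) (t : PowerSeries κ)
    (h : Good Q) : Good (Q.scaleRoots t) := by
  obtain ⟨m, hm, S, h⟩ := h
  refine ⟨m, hm, S.map (fun a => a * E m hm t), ?_⟩
  rw [Polynomial.map_scaleRoots _ _ _ (by rw [hQ.leadingCoeff, map_one]; exact one_ne_zero), h,
    scale_prod]

theorem taylor_prod (t : PowerSeries κ) (S : Multiset (PowerSeries κ)) :
    Polynomial.taylor t ((S.map (fun a => Polynomial.X - Polynomial.C a)).prod) =
      ((S.map (fun a => a - t)).map (fun a => Polynomial.X - Polynomial.C a)).prod := by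
  induction S using Multiset.induction_on with
  | empty => simp
  | cons a S ih =>
    rw [Multiset.map_cons, Multiset.prod_cons, Polynomial.taylor_mul, ih, Multiset.map_cons,
      Multiset.map_cons, Multiset.prod_cons, map_sub, Polynomial.taylor_X, Polynomial.taylor_C,
      Polynomial.C_sub]
    congr 1
    ring

theorem good_taylor {Q : Polynomial (PowerSeries κ)} (t : PowerSeries κ)
    (h : Good (Polynomial.taylor t Q)) : Good Q := by
  obtain ⟨m, hm, S, h⟩ := h
  refine ⟨m, hm, S.map (fun a => a - (-E m hm t)), ?_⟩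
  rw [← taylor_prod, ← h, Polynomial.map_taylor, Polynomial.taylor_taylor, neg_add_cancel,
    Polynomial.taylor_zero]

theorem good_X_pow (n : ℕ) : Good (Polynomial.X ^ n : Polynomial (PowerSeries κ)) := by
  refine ⟨1, one_ne_zero, Multiset.replicate n 0, ?_⟩
  simp

/-- the second coefficient can be removed -/
theorem shift_coeff [CharZero κ] {Q : Polynomial (PowerSeries κ)} {n : ℕ} (hQ : Q.Monic)
    (hn : Q.natDegree = n + 1) :
    ∃ t : PowerSeries κ, (Polynomial.taylor t Q).coeff n = 0 := by
  refine ⟨-(PowerSeries.C (((n : κ) + 1)⁻¹) * Q.coeff n), ?_⟩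
  rw [Polynomial.taylor_coeff, Polynomial.eval_eq_sum_range' (n := 2)]
  · rw [Finset.sum_range_succ, Finset.sum_range_one, Polynomial.hasseDeriv_coeff,
      Polynomial.hasseDeriv_coeff, zero_add, Nat.choose_self, add_comm 1 n,
      Nat.choose_succ_self_right, ← hn]
    have h1 : Q.coeff Q.natDegree = 1 := hQ
    rw [h1, hn]
    have h2 : ((n + 1 : ℕ) : PowerSeries κ) * PowerSeries.C (((n : κ) + 1)⁻¹) = 1 := by
      have h3 : ((n + 1 : ℕ) : PowerSeries κ) = PowerSeries.C ((n : κ) + 1) := by
        push_cast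
        rw [map_add, map_natCast, map_one]
      rw [h3, ← map_mul, mul_inv_cancel₀, map_one]
      exact_mod_cast Nat.succ_ne_zero n
    calc ((1 : ℕ) : PowerSeries κ) * Q.coeff n * (-(PowerSeries.C (((n : κ) + 1)⁻¹) *
          Q.coeff n)) ^ 0 + ((n + 1 : ℕ) : PowerSeries κ) * 1 *
          (-(PowerSeries.C (((n : κ) + 1)⁻¹) * Q.coeff n)) ^ 1
        = Q.coeff n - (((n + 1 : ℕ) : PowerSeries κ) * PowerSeries.C (((n : κ) + 1)⁻¹)) *
          Q.coeff n := by push_cast; ring
      _ = 0 := by rw [h2]; ring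
  · refine lt_of_le_of_lt (Polynomial.natDegree_hasseDeriv_le _ _) ?_
    rw [hn]
    omega

/-- the choice of the slope -/
theorem slope {Q : Polynomial (PowerSeries κ)} {n : ℕ} (h : ∃ i < n, Q.coeff i ≠ 0) :
    ∃ i₀ < n, ∃ p : ℕ, PowerSeries.coeff p (Q.coeff i₀) ≠ 0 ∧
      ∀ i < n, ∀ j, j * (n - i₀) < p * (n - i) → PowerSeries.coeff j (Q.coeff i) = 0 := by
  classical
  obtain ⟨i₁, hi₁, h₁⟩ := h
  obtain ⟨i₀, hi₀, hmin⟩ := Finset.exists_min_image
    ((Finset.range n).filter (fun i => Q.coeff i ≠ 0))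
    (fun i => ((Q.coeff i).order.toNat : ℚ) / ((n - i : ℕ) : ℚ))
    ⟨i₁, Finset.mem_filter.2 ⟨Finset.mem_range.2 hi₁, h₁⟩⟩
  rw [Finset.mem_filter, Finset.mem_range] at hi₀
  refine ⟨i₀, hi₀.1, (Q.coeff i₀).order.toNat, PowerSeries.coeff_order hi₀.2, ?_⟩
  intro i hi j hj
  by_cases hq : Q.coeff i = 0
  · rw [hq, map_zero]
  · have h2 := hmin i (Finset.mem_filter.2 ⟨Finset.mem_range.2 hi, hq⟩)
    have h3 : (0 : ℚ) < ((n - i : ℕ) : ℚ) := by
      have : 0 < n - i := by omega
      exact_mod_cast this
    have h4 : (0 : ℚ) < ((n - i₀ : ℕ) : ℚ) := by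
      have : 0 < n - i₀ := by omega
      exact_mod_cast this
    rw [div_le_div_iff₀ h4 h3] at h2
    have h5 : (Q.coeff i₀).order.toNat * (n - i) ≤ (Q.coeff i).order.toNat * (n - i₀) := by
      exact_mod_cast h2
    refine PowerSeries.coeff_of_lt_order_toNat _ ?_
    exact lt_of_mul_lt_mul_right (lt_of_lt_of_le hj h5) (Nat.zero_le _)

/-- the inductive step -/
theorem step (hHFC : T_HFC) [IsAlgClosed κ] [CharZero κ] {n : ℕ}
    (ih : ∀ Q : Polynomial (PowerSeries κ), Q.Monic → Q.natDegree < n + 1 → Good Q)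
    {Q : Polynomial (PowerSeries κ)} (hQ : Q.Monic) (hn : Q.natDegree = n + 1)
    (h0 : Q.coeff n = 0) : Good Q := by
  classical
  have hlead : Q.coeff (n + 1) = 1 := by rw [← hn]; exact hQ
  by_cases hall : ∀ i < n + 1, Q.coeff i = 0
  · have : Q = Polynomial.X ^ (n + 1) := by
      ext1 i
      rw [Polynomial.coeff_X_pow]
      by_cases hi : i = n + 1
      · rw [if_pos hi, hi, hlead]
      · rw [if_neg hi]
        rcases lt_or_gt_of_ne hi with h | h
        · exact hall i h
        · exact Polynomial.coeff_eq_zero_of_natDegree_lt (by omega)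
    rw [this]
    exact good_X_pow _
  · push Not at hall
    obtain ⟨i₀, hi₀, p, hp, hmin⟩ := slope hall
    have hq : n + 1 - i₀ ≠ 0 := by omega
    have hb : ∀ i, ∃ b, E (n + 1 - i₀) hq (Q.coeff i) = PowerSeries.X ^ (p * (n + 1 - i)) * b := by
      intro i
      by_cases hi : i < n + 1
      · have hd : (PowerSeries.X : PowerSeries κ) ^ (p * (n + 1 - i)) ∣
            E (n + 1 - i₀) hq (Q.coeff i) := by
          rw [PowerSeries.X_pow_dvd_iff]
          intro j hj
          rw [E_apply, PowerSeries.coeff_expand]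
          split_ifs with hdvd
          · obtain ⟨k, rfl⟩ := hdvd
            rw [Nat.mul_div_cancel_left _ (Nat.pos_of_ne_zero hq)]
            exact hmin i hi k (by rw [mul_comm]; exact hj)
          · rfl
        exact hd
      · refine ⟨E (n + 1 - i₀) hq (Q.coeff i), ?_⟩
        have : n + 1 - i = 0 := by omega
        rw [this, mul_zero, pow_zero, one_mul]
    choose b hb using hb
    have hbn : b (n + 1) = 1 := by
      have := hb (n + 1)
      rw [hlead, map_one, Nat.sub_self, mul_zero, pow_zero, one_mul] at this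
      exact this.symm
    have hb1 : b n = 0 := by
      have := hb n
      rw [h0, map_zero] at this
      exact (mul_eq_zero.1 this.symm).resolve_left (pow_ne_zero _ PowerSeries.X_ne_zero)
    have hb0 : PowerSeries.constantCoeff (b i₀) ≠ 0 := by
      have h1 := congrArg (PowerSeries.coeff ((n + 1 - i₀) * p)) (hb i₀)
      rw [E_apply, PowerSeries.coeff_expand_mul, mul_comm p, PowerSeries.coeff_X_pow_mul',
        if_pos le_rfl, Nat.sub_self, PowerSeries.coeff_zero_eq_constantCoeff_apply] at h1
      rw [← h1]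
      exact hp
    set Q1 : Polynomial (PowerSeries κ) :=
      ∑ i ∈ Finset.range (n + 2), Polynomial.monomial i (b i) with hQ1
    have hc : ∀ i, Q1.coeff i = if i < n + 2 then b i else 0 := by
      intro i
      rw [hQ1, Polynomial.finsetSum_coeff]
      simp only [Polynomial.coeff_monomial]
      rw [Finset.sum_ite_eq' (Finset.range (n + 2)) i b]
      simp only [Finset.mem_range]
    have hdle : Q1.natDegree ≤ n + 1 := by
      rw [Polynomial.natDegree_le_iff_coeff_eq_zero]
      intro i hi
      rw [hc, if_neg (by omega)]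
    have hc1 : Q1.coeff (n + 1) = 1 := by
      rw [hc, if_pos (by omega), hbn]
    have hm1 : Q1.Monic := Polynomial.monic_of_natDegree_le_of_coeff_eq_one (n + 1) hdle hc1
    have hd1 : Q1.natDegree = n + 1 :=
      Polynomial.natDegree_eq_of_le_of_coeff_ne_zero hdle (by rw [hc1]; exact one_ne_zero)
    have hsc : Q.map (E (n + 1 - i₀) hq) = Q1.scaleRoots (PowerSeries.X ^ p) := by
      ext1 i
      rw [Polynomial.coeff_map, hb i, Polynomial.coeff_scaleRoots, hd1, hc, ← pow_mul]
      split_ifs with hi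
      · rw [mul_comm]
      · rw [← hb i, Polynomial.coeff_eq_zero_of_natDegree_lt (by omega), map_zero, zero_mul]
    refine good_of_map (q := n + 1 - i₀) (hq := hq) ?_
    rw [hsc]
    refine good_scale hm1 _ ?_
    -- the reduction
    set R : Polynomial κ := Q1.map PowerSeries.constantCoeff with hR
    have hRm : R.Monic := hm1.map _
    have hRd : R.natDegree = n + 1 := by rw [hR, hm1.natDegree_map, hd1]
    have hR0 : R ≠ 0 := hRm.ne_zero
    obtain ⟨c, hcr⟩ := IsAlgClosed.exists_root R (by
      rw [Polynomial.degree_eq_natDegree hR0, hRd]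
      exact_mod_cast Nat.succ_ne_zero n)
    obtain ⟨B, hB, hBn⟩ := Polynomial.exists_eq_pow_rootMultiplicity_mul_and_not_dvd R hR0 c
    have hk1 : 0 < R.rootMultiplicity c := (Polynomial.rootMultiplicity_pos hR0).2 hcr
    set k := R.rootMultiplicity c with hk
    have hAm : ((Polynomial.X - Polynomial.C c) ^ k).Monic := (Polynomial.monic_X_sub_C c).pow k
    have hBm : B.Monic := by
      refine Polynomial.Monic.of_mul_monic_left hAm ?_
      rw [← hB]
      exact hRm
    have hdeg : n + 1 = k + B.natDegree := by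
      rw [← hRd, hB, hAm.natDegree_mul hBm, Polynomial.natDegree_pow, Polynomial.natDegree_X_sub_C,
        mul_one]
    have hB1 : 0 < B.natDegree := by
      rcases Nat.eq_zero_or_pos B.natDegree with h | h
      · exfalso
        have hBone : B = 1 := hBm.natDegree_eq_zero.1 h
        rw [h, add_zero] at hdeg
        have hRX : R = (Polynomial.X - Polynomial.C c) ^ (n + 1) := by
          rw [hB, hBone, mul_one, ← hdeg]
        have h1 : R.nextCoeff = 0 := by
          rw [Polynomial.nextCoeff_of_natDegree_pos (by omega), hRd, hR, Polynomial.coeff_map,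
            Nat.add_sub_cancel, hc, if_pos (by omega), hb1, map_zero]
        rw [hRX, (Polynomial.monic_X_sub_C c).nextCoeff_pow, Polynomial.nextCoeff_X_sub_C,
          nsmul_eq_mul] at h1
        have h2 : c = 0 := by
          rcases mul_eq_zero.1 h1 with h3 | h3
          · exact absurd h3 (by exact_mod_cast Nat.succ_ne_zero n)
          · exact neg_eq_zero.1 h3
        have h3 : R.coeff i₀ = 0 := by
          rw [hRX, h2, Polynomial.C_0, sub_zero, Polynomial.coeff_X_pow, if_neg (by omega)]
        rw [hR, Polynomial.coeff_map, hc, if_pos (by omega)] at h3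
        exact hb0 h3
      · exact h
    have hcop : IsCoprime ((Polynomial.X - Polynomial.C c) ^ k) B :=
      IsCoprime.pow_left (((Polynomial.irreducible_X_sub_C c).coprime_iff_not_dvd).2 hBn)
    obtain ⟨A', B', hA'm, hB'm, hA', hB', hprod⟩ := hHFC κ Q1 _ B hm1 hAm hBm hcop hB
    have hA'd : A'.natDegree = k := by
      rw [← hA'm.natDegree_map PowerSeries.constantCoeff, hA', Polynomial.natDegree_pow,
        Polynomial.natDegree_X_sub_C, mul_one]
    have hB'd : B'.natDegree = B.natDegree := by
      rw [← hB'm.natDegree_map PowerSeries.constantCoeff, hB']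
    rw [hprod]
    exact good_mul (ih A' hA'm (by omega)) (ih B' hB'm (by omega))

theorem good_all (hHFC : T_HFC) [IsAlgClosed κ] [CharZero κ] (n : ℕ) :
    ∀ Q : Polynomial (PowerSeries κ), Q.Monic → Q.natDegree < n → Good Q := by
  induction n with
  | zero => intro Q _ h; exact absurd h (Nat.not_lt_zero _)
  | succ n ih =>
    intro Q hQ hd
    rcases Nat.lt_or_ge Q.natDegree n with h | h
    · exact ih Q hQ h
    · have hn : Q.natDegree = n := by omega
      rcases Nat.eq_zero_or_pos n with h0 | h0
      · have : Q = 1 := hQ.natDegree_eq_zero.1 (hn.trans h0)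
        rw [this, ← pow_zero Polynomial.X]
        exact good_X_pow 0
      · obtain ⟨n', rfl⟩ : ∃ n', n = n' + 1 := ⟨n - 1, by omega⟩
        obtain ⟨t, ht⟩ := shift_coeff hQ hn
        refine good_taylor t (step hHFC ih ?_ ?_ ht)
        · have := Polynomial.leadingCoeff_taylor (r := t) (f := Q)
          exact this.trans hQ
        · rw [Polynomial.natDegree_taylor, hn]

theorem fin_family {P : Polynomial (PowerSeries κ)} {n : ℕ} (S : Multiset (PowerSeries κ))
    (hS : Multiset.card S = n)
    (hP : P = (S.map (fun a => Polynomial.X - Polynomial.C a)).prod) :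
    ∃ x : Fin n → PowerSeries κ, P = ∏ j, (Polynomial.X - Polynomial.C (x j)) := by
  subst hS
  induction S using Quotient.inductionOn with
  | h l =>
    refine ⟨fun j => l.get j, ?_⟩
    rw [hP]
    have h1 : (Multiset.map (fun a => (Polynomial.X - Polynomial.C a :
        Polynomial (PowerSeries κ))) (l : Multiset (PowerSeries κ))).prod =
        (l.map (fun a => (Polynomial.X - Polynomial.C a : Polynomial (PowerSeries κ)))).prod := by
      rw [Multiset.map_coe, Multiset.prod_coe]
    refine h1.trans ?_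
    exact (Fin.prod_univ_fun_getElem l (fun a => (Polynomial.X - Polynomial.C a :
        Polynomial (PowerSeries κ)))).symm

end

theorem pf_NPX (hHFC : T_HFC) : T_NPX := by
  intro κ _ _ _ Q hQ
  obtain ⟨m, hm, S, hS⟩ := good_all hHFC (Q.natDegree + 1) Q hQ (Nat.lt_succ_self _)
  have hcard : Multiset.card S = Q.natDegree := by
    have h1 := congrArg Polynomial.natDegree hS
    rw [hQ.natDegree_map, Polynomial.natDegree_multiset_prod_X_sub_C_eq_card] at h1
    exact h1.symm
  obtain ⟨x, hx⟩ := fin_family S hcard hS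
  refine ⟨m, E m hm, x, Nat.one_le_iff_ne_zero.2 hm, PowerSeries.expand_X m hm,
    fun a => PowerSeries.expand_C m hm a, fun c hc => E_zero hc, hx⟩

end Pool.Agent.H97.VZ
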